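import Mathlib
import Pool.Agent.H82.AS.Targets

/-!
# Asymptotic formula for the number of admissible triples, row GBD: size of the terms of the
singular series
-/

set_option autoImplicit false

open Pool.Agent.H38.RB Pool.Agent.H38.PS Pool.Agent.H82.AS

namespace Pool.Agent.H66.AS

theorem two_pow_le (D : ℕ) (hD : 1 ≤ D) : 2 ^ D.primeFactors.card ≤ D.divisors.card := by
  rw [Nat.card_divisors (by omega)]
  calc 2 ^ D.primeFactors.card = ∏ _x ∈ D.primeFactors, 2 := by rw [Finset.prod_const]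
    _ ≤ _ := Finset.prod_le_prod' fun p hp => by
        have : 0 < D.factorization p := by
          rw [Nat.mem_primeFactors] at hp
          exact hp.1.factorization_pos_of_dvd hp.2.2 hp.2.1
        omega

theorem w3_le (D : ℕ) (hD : 1 ≤ D) : w3 D ≤ (D.divisors.card : ℝ) ^ 2 := by
  unfold w3
  have h1 : ((2 : ℝ)) ^ D.primeFactors.card ≤ D.divisors.card := by
    exact_mod_cast two_pow_le D hD
  calc (3 : ℝ) ^ D.primeFactors.card ≤ (2 ^ 2 : ℝ) ^ D.primeFactors.card :=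
        pow_le_pow_left₀ (by norm_num) (by norm_num) _
    _ = ((2 : ℝ) ^ D.primeFactors.card) ^ 2 := by rw [← pow_mul, ← pow_mul, mul_comm]
    _ ≤ _ := pow_le_pow_left₀ (by positivity) h1 2

/-- the sum over the multiples of `g` -/
theorem mult_sum (g : ℕ) (hg : 1 ≤ g) :
    HasSum (fun k : ℕ => if g ∣ k then (g : ℝ) / (k : ℝ) ^ 2 else 0)
      (1 / (g : ℝ) * (Real.pi ^ 2 / 6)) := by
  have hinj : Function.Injective (fun j : ℕ => g * j) := fun a b h =>
    Nat.eq_of_mul_eq_mul_left (by omega) h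
  have hg0 : (g : ℝ) ≠ 0 := by exact_mod_cast (by omega : g ≠ 0)
  rw [← hinj.hasSum_iff]
  · have h1 := (hasSum_zeta_two).mul_left (1 / (g : ℝ))
    have e : ((fun k : ℕ => if g ∣ k then (g : ℝ) / (k : ℝ) ^ 2 else 0) ∘ fun j : ℕ => g * j) =
        fun n : ℕ => 1 / (g : ℝ) * (1 / (n : ℝ) ^ 2) := by
      funext j
      simp only [Function.comp, dvd_mul_right, if_true]
      push_cast
      rcases eq_or_ne (j : ℝ) 0 with h | h
      · rw [h]; simp
      · field_simp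
    rw [e]
    exact h1
  · intro k hk
    rw [if_neg]
    rintro ⟨j, hj⟩
    exact hk ⟨j, hj.symm⟩

theorem kp_le (D : ℕ) (hD : 1 ≤ D) : |kp D| ≤ 2 * (D.divisors.card : ℝ) := by
  have hs : HasSum (fun k : ℕ => ∑ g ∈ D.divisors, if g ∣ k then (g : ℝ) / (k : ℝ) ^ 2 else 0)
      (∑ g ∈ D.divisors, 1 / (g : ℝ) * (Real.pi ^ 2 / 6)) :=
    hasSum_sum fun g hg => mult_sum g (Nat.pos_of_mem_divisors hg)
  have h1 : |kp D| ≤ ∑ g ∈ D.divisors, 1 / (g : ℝ) * (Real.pi ^ 2 / 6) := by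
    unfold kp
    rw [← Real.norm_eq_abs]
    refine tsum_of_norm_bounded hs fun k => ?_
    rw [Real.norm_eq_abs, abs_div, abs_mul, Nat.abs_cast, abs_pow, Nat.abs_cast]
    have hm : |(ArithmeticFunction.moebius k : ℝ)| ≤ 1 := by
      have := ArithmeticFunction.abs_moebius_le_one (n := k)
      exact_mod_cast this
    have h2 : |(ArithmeticFunction.moebius k : ℝ)| * (Nat.gcd k D : ℝ) / (k : ℝ) ^ 2 ≤
        (Nat.gcd k D : ℝ) / (k : ℝ) ^ 2 := by
      apply div_le_div_of_nonneg_right _ (by positivity)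
      have : (0 : ℝ) ≤ (Nat.gcd k D : ℝ) := Nat.cast_nonneg _
      nlinarith
    refine h2.trans ?_
    have hmem : Nat.gcd k D ∈ D.divisors :=
      Nat.mem_divisors.2 ⟨Nat.gcd_dvd_right k D, by omega⟩
    have h3 := Finset.single_le_sum (f := fun g : ℕ => if g ∣ k then (g : ℝ) / (k : ℝ) ^ 2 else 0)
      (fun g _ => by split_ifs <;> positivity) hmem
    simp only [Nat.gcd_dvd_left, if_true] at h3
    exact h3
  refine h1.trans ?_
  have hpi : Real.pi ^ 2 / 6 ≤ 2 := by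
    have := Real.pi_lt_d2
    have h0 := Real.pi_pos
    nlinarith
  calc ∑ g ∈ D.divisors, 1 / (g : ℝ) * (Real.pi ^ 2 / 6) ≤ ∑ g ∈ D.divisors, (2 : ℝ) := by
        refine Finset.sum_le_sum fun g hg => ?_
        have hg1 : (1 : ℝ) ≤ g := by exact_mod_cast Nat.pos_of_mem_divisors hg
        have h4 : 1 / (g : ℝ) ≤ 1 := by rw [div_le_one (by linarith)]; exact hg1
        have h5 : 0 ≤ 1 / (g : ℝ) := by positivity
        have h6 : 0 ≤ Real.pi ^ 2 / 6 := by positivity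
        nlinarith
    _ = _ := by rw [Finset.sum_const, nsmul_eq_mul]; ring

/-- GBD -/
theorem pf_GBD (hDVB : T_DVB) (hSQB : T_SQB) (hPAI : T_PAI) : T_GBD := by
  obtain ⟨C, hC, hdiv⟩ := hDVB (1 / 96) (by norm_num)
  refine ⟨2 * C ^ 4, by positivity, fun D hD => ⟨fun hns => ?_, ?_⟩⟩
  · exact hPAI (fun x => x ^ (2 / 3 : ℝ)) D hD hns
  obtain ⟨-, -, -, -, hex, -, -⟩ := hSQB D hD
  have hexD : 0 ≤ ex D := (by norm_num : (0 : ℝ) ≤ 1).trans (hex D dvd_rfl).1
  have hE : 0 ≤ ex D ^ (2 / 3 : ℝ) := Real.rpow_nonneg hexD _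
  have hG : |Gx D| ≤ (D.divisors.card : ℝ) * ex D ^ (2 / 3 : ℝ) := by
    unfold Gx
    refine (Finset.abs_sum_le_sum_abs _ _).trans ?_
    calc ∑ E ∈ D.divisors, |(ArithmeticFunction.moebius (D / E) : ℝ) * ex E ^ (2 / 3 : ℝ)|
        ≤ ∑ E ∈ D.divisors, ex D ^ (2 / 3 : ℝ) := by
          refine Finset.sum_le_sum fun E hE' => ?_
          have hEd := Nat.dvd_of_mem_divisors hE'
          obtain ⟨h1, h2⟩ := hex E hEd
          have hm : |(ArithmeticFunction.moebius (D / E) : ℝ)| ≤ 1 := by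
            have := ArithmeticFunction.abs_moebius_le_one (n := D / E)
            exact_mod_cast this
          have h3 : 0 ≤ ex E ^ (2 / 3 : ℝ) := Real.rpow_nonneg (by linarith) _
          have h4 : ex E ^ (2 / 3 : ℝ) ≤ ex D ^ (2 / 3 : ℝ) :=
            Real.rpow_le_rpow (by linarith) h2 (by norm_num)
          rw [abs_mul, abs_of_nonneg h3]
          nlinarith [abs_nonneg (ArithmeticFunction.moebius (D / E) : ℝ)]
      _ = _ := by rw [Finset.sum_const, nsmul_eq_mul]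
  have hw0 : 0 ≤ w3 D := by unfold w3; positivity
  have hw := w3_le D hD
  have hk := kp_le D hD
  set t : ℝ := (D.divisors.card : ℝ) with ht
  have ht0 : 0 ≤ t := Nat.cast_nonneg _
  have h1 : |w3 D * Gx D * kp D| ≤ 2 * t ^ 4 * ex D ^ (2 / 3 : ℝ) := by
    rw [abs_mul, abs_mul, abs_of_nonneg hw0]
    calc w3 D * |Gx D| * |kp D| ≤ t ^ 2 * (t * ex D ^ (2 / 3 : ℝ)) * (2 * t) := by
          gcongr
      _ = _ := by ring
  refine h1.trans ?_
  have h2 : t ≤ C * (D : ℝ) ^ (1 / 96 : ℝ) := hdiv D hD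
  have h3 : t ^ 4 ≤ C ^ 4 * (D : ℝ) ^ (1 / 24 : ℝ) := by
    calc t ^ 4 ≤ (C * (D : ℝ) ^ (1 / 96 : ℝ)) ^ 4 := pow_le_pow_left₀ ht0 h2 4
      _ = C ^ 4 * ((D : ℝ) ^ (1 / 96 : ℝ)) ^ (4 : ℕ) := by rw [mul_pow]
      _ = _ := by
        rw [← Real.rpow_natCast ((D : ℝ) ^ (1 / 96 : ℝ)) 4, ← Real.rpow_mul (Nat.cast_nonneg _)]
        norm_num
  calc 2 * t ^ 4 * ex D ^ (2 / 3 : ℝ) ≤
      2 * (C ^ 4 * (D : ℝ) ^ (1 / 24 : ℝ)) * ex D ^ (2 / 3 : ℝ) := by gcongr
    _ = _ := by ring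

end Pool.Agent.H66.AS
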